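import Mathlib

/-!
# The second Grzegorczyk class is a basis for punctual standardness

We formalise the second Grzegorczyk class `E2`, punctual copies of `(ℕ, S)`, what it
means to be primitive recursive on a punctual copy, punctual standardness and bases for
punctual standardness, and prove that `E2` is such a basis.

Proof idea.  A bounded halting predicate `f (s, z)` (the computation of an abstract machine
started in state `s` reaches the final state (return the value 0) within `z` steps and
through states `≤ z` only) lies in `E2`.  If `f` is primitive recursive on the copy `A`, then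
`(s, a) ↦ f (s, ι⁻¹ a)` is primitive recursive in the ordinary sense, and a diagonal argument
bounds `ι⁻¹ a` by a primitive recursive function of `a`.
-/

set_option autoImplicit false

namespace Pool.Agent.Results.MP_9dcafa_lc.E2IsBasis

open List (Vector)

/-- The second Grzegorczyk class: the smallest class of functions (of any finite arity)
containing zero, successor, the projections, `x + y` and `x * y` and closed under composition
and bounded (limited) primitive recursion. -/
inductive E2 : {n : ℕ} → (List.Vector ℕ n → ℕ) → Prop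
  /-- the constant `0`, of every arity -/
  | zero {n : ℕ} : E2 (fun _ : List.Vector ℕ n => 0)
  /-- the successor function -/
  | succ : E2 (fun v : List.Vector ℕ 1 => v.head + 1)
  /-- the projections -/
  | proj {n : ℕ} (i : Fin n) : E2 (fun v : List.Vector ℕ n => v.get i)
  /-- addition -/
  | add : E2 (fun v : List.Vector ℕ 2 => v.get 0 + v.get 1)
  /-- multiplication -/
  | mul : E2 (fun v : List.Vector ℕ 2 => v.get 0 * v.get 1)
  /-- closure under composition -/
  | comp {m n : ℕ} {f : List.Vector ℕ n → ℕ} (g : Fin n → List.Vector ℕ m → ℕ) :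
      E2 f → (∀ i, E2 (g i)) → E2 (fun v => f (List.Vector.ofFn fun i => g i v))
  /-- closure under bounded primitive recursion: `h (0, v) = f v`,
  `h (y + 1, v) = g (y, h (y, v), v)`, provided that `h` is bounded by a function `b` which is
  already in the class -/
  | boundedRec {n : ℕ} {f : List.Vector ℕ n → ℕ} {g : List.Vector ℕ (n + 2) → ℕ}
      {b : List.Vector ℕ (n + 1) → ℕ} (h : List.Vector ℕ (n + 1) → ℕ) :
      E2 f → E2 g → E2 b →
      (∀ v, h (0 ::ᵥ v) = f v) →
      (∀ y v, h ((y + 1) ::ᵥ v) = g (y ::ᵥ h (y ::ᵥ v) ::ᵥ v)) →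
      (∀ v, h v ≤ b v) → E2 h

/-- A punctual copy of `(ℕ, S)`: a structure `(ℕ, succ)` with `succ` primitive recursive which
is isomorphic to `(ℕ, S)`; `iota` is the (unique) isomorphism from `(ℕ, S)` onto it. -/
structure PunctualCopy where
  /-- the successor function of the copy -/
  succ : ℕ → ℕ
  /-- it is primitive recursive -/
  primrec_succ : Primrec succ
  /-- the isomorphism from `(ℕ, S)` onto the copy -/
  iota : ℕ ≃ ℕ
  /-- it is an isomorphism -/
  iota_succ : ∀ n, iota (n + 1) = succ (iota n)

/-- The isomorphism is determined by the copy (rigidity of `(ℕ, S)`). -/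
theorem PunctualCopy.iota_unique (A B : PunctualCopy) (h : A.succ = B.succ) :
    A.iota = B.iota := by
  have h0 : ∀ C : PunctualCopy, ∀ x, C.succ x ≠ C.iota 0 := by
    intro C x hx
    obtain ⟨n, rfl⟩ := C.iota.surjective x
    rw [← C.iota_succ] at hx
    exact absurd (C.iota.injective hx) (Nat.succ_ne_zero n)
  have h1 : A.iota 0 = B.iota 0 := by
    obtain ⟨n, hn⟩ := B.iota.surjective (A.iota 0)
    cases n with
    | zero => exact hn.symm
    | succ n =>
      rw [B.iota_succ, ← h] at hn
      exact absurd hn (h0 A _)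
  ext n
  induction n with
  | zero => exact h1
  | succ n ih => rw [A.iota_succ, B.iota_succ, ih, h]

/-- The standard copy. -/
def PunctualCopy.standard : PunctualCopy := ⟨Nat.succ, Primrec.succ, Equiv.refl ℕ, fun _ => rfl⟩

/-- The function `f^A` on the copy `A`:
`f^A (a₁, …, a_k) = ι (f (ι⁻¹ a₁, …, ι⁻¹ a_k))`. -/
def PunctualCopy.transfer (A : PunctualCopy) {k : ℕ} (f : List.Vector ℕ k → ℕ) :
    List.Vector ℕ k → ℕ :=
  fun v => A.iota (f (v.map A.iota.symm))

/-- `f` is primitive recursive on the copy `A` if `f^A` is primitive recursive. -/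
def PunctualCopy.PrimrecOn (A : PunctualCopy) {k : ℕ} (f : List.Vector ℕ k → ℕ) : Prop :=
  Nat.Primrec' (A.transfer f)

/-- `A` is punctually standard if the functions primitive recursive on `A` are exactly the
primitive recursive functions. -/
def PunctualCopy.PunctuallyStandard (A : PunctualCopy) : Prop :=
  ∀ (k : ℕ) (f : List.Vector ℕ k → ℕ), A.PrimrecOn f ↔ Nat.Primrec' f

/-- A class `F` of functions on `ℕ` (given as a predicate on functions of every arity) is a
basis for punctual standardness if every punctual copy on which all members of `F` are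
primitive recursive is punctually standard. -/
def IsPunctualBasis (F : (k : ℕ) → (List.Vector ℕ k → ℕ) → Prop) : Prop :=
  ∀ A : PunctualCopy, (∀ (k : ℕ) (f : List.Vector ℕ k → ℕ), F k f → A.PrimrecOn f) →
    A.PunctuallyStandard

/-! ### Closure properties of `E2` -/

theorem vget0 {n : ℕ} (a : ℕ) (v : List.Vector ℕ n) : (a ::ᵥ v).get 0 = a := by
  cases v; rfl

theorem vget1 {n : ℕ} (a b : ℕ) (v : List.Vector ℕ n) : (a ::ᵥ b ::ᵥ v).get 1 = b := by
  cases v; rfl

theorem vget2 {n : ℕ} (a b c : ℕ) (v : List.Vector ℕ n) :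
    (a ::ᵥ b ::ᵥ c ::ᵥ v).get 2 = c := by
  cases v; rfl

theorem vget3 {n : ℕ} (a b c d : ℕ) (v : List.Vector ℕ n) :
    (a ::ᵥ b ::ᵥ c ::ᵥ d ::ᵥ v).get 3 = d := by
  cases v; rfl

theorem E2.of_eq {n : ℕ} {f g : List.Vector ℕ n → ℕ} (hf : E2 f) (h : ∀ v, f v = g v) : E2 g :=
  (funext h : f = g) ▸ hf

theorem E2.comp1 {n : ℕ} {F : List.Vector ℕ 1 → ℕ} (hF : E2 F) {f : List.Vector ℕ n → ℕ}
    (hf : E2 f) : E2 (fun v => F (f v ::ᵥ List.Vector.nil)) :=
  (E2.comp (fun _ : Fin 1 => f) hF (fun _ => hf)).of_eq fun v => by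
    congr 1

theorem E2.comp2 {n : ℕ} {F : List.Vector ℕ 2 → ℕ} (hF : E2 F) {f g : List.Vector ℕ n → ℕ}
    (hf : E2 f) (hg : E2 g) : E2 (fun v => F (f v ::ᵥ g v ::ᵥ List.Vector.nil)) :=
  (E2.comp ![f, g] hF (by
    intro i
    match i with
    | 0 => exact hf
    | 1 => exact hg)).of_eq
    fun v => by
      congr 1

theorem E2.comp3 {n : ℕ} {F : List.Vector ℕ 3 → ℕ} (hF : E2 F) {f g h : List.Vector ℕ n → ℕ}
    (hf : E2 f) (hg : E2 g) (hh : E2 h) :
    E2 (fun v => F (f v ::ᵥ g v ::ᵥ h v ::ᵥ List.Vector.nil)) :=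
  (E2.comp ![f, g, h] hF (by
    intro i
    match i with
    | 0 => exact hf
    | 1 => exact hg
    | 2 => exact hh)).of_eq
    fun v => by
      congr 1

theorem E2.add' {n : ℕ} {f g : List.Vector ℕ n → ℕ} (hf : E2 f) (hg : E2 g) :
    E2 (fun v => f v + g v) := E2.comp2 E2.add hf hg

theorem E2.mul' {n : ℕ} {f g : List.Vector ℕ n → ℕ} (hf : E2 f) (hg : E2 g) :
    E2 (fun v => f v * g v) := E2.comp2 E2.mul hf hg

theorem E2.succ' {n : ℕ} {f : List.Vector ℕ n → ℕ} (hf : E2 f) :
    E2 (fun v => f v + 1) := E2.comp1 E2.succ hf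

theorem E2.const {n : ℕ} (c : ℕ) : E2 (fun _ : List.Vector ℕ n => c) := by
  induction c with
  | zero => exact E2.zero
  | succ c ih => exact ih.succ'

/-- Bounded recursion without extra parameters, for functions of one argument. -/
theorem E2.rec1 {h : ℕ → ℕ} (a : ℕ) {g : List.Vector ℕ 2 → ℕ} {b : List.Vector ℕ 1 → ℕ}
    (hg : E2 g) (hb : E2 b) (h0 : h 0 = a)
    (hs : ∀ y, h (y + 1) = g (y ::ᵥ h y ::ᵥ List.Vector.nil))
    (hle : ∀ y, h y ≤ b (y ::ᵥ List.Vector.nil)) :
    E2 (fun v : List.Vector ℕ 1 => h v.head) := by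
  refine E2.boundedRec (f := fun _ => a) (g := g) (b := b) (fun v => h v.head)
    (E2.const a) hg hb ?_ ?_ ?_
  · intro v; simpa using h0
  · intro y v
    have : v = List.Vector.nil := by
      exact Subsingleton.elim _ _
    subst this
    simpa using hs y
  · intro v
    have h1 : v = v.head ::ᵥ List.Vector.nil := by
      rw [← List.Vector.cons_head_tail v]
      simp
    have := hle v.head
    rw [← h1] at this
    exact this

theorem E2.pred' {n : ℕ} {f : List.Vector ℕ n → ℕ} (hf : E2 f) : E2 (fun v => f v - 1) := by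
  have h : E2 (fun v : List.Vector ℕ 1 => v.head - 1) := by
    refine E2.rec1 (h := fun y => y - 1) 0 (g := fun v => v.get 0) (b := fun v => v.get 0)
      (E2.proj 0) (E2.proj 0) rfl ?_ ?_
    · intro y; simp
    · intro y; simp
  exact E2.comp1 h hf

theorem E2.sub' {n : ℕ} {f g : List.Vector ℕ n → ℕ} (hf : E2 f) (hg : E2 g) :
    E2 (fun v => f v - g v) := by
  have h : E2 (fun v : List.Vector ℕ 2 => v.get 1 - v.get 0) := by
    refine E2.boundedRec (f := fun v : List.Vector ℕ 1 => v.get 0)
      (g := fun v : List.Vector ℕ 3 => v.get 1 - 1)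
      (b := fun v : List.Vector ℕ 2 => v.get 1) _ (E2.proj 0) (E2.proj 1).pred' (E2.proj 1) ?_ ?_ ?_
    · intro v
      obtain ⟨a, w, rfl⟩ := v.exists_eq_cons
      simp only [vget0, vget1, Nat.sub_zero]
    · intro y v
      obtain ⟨a, w, rfl⟩ := v.exists_eq_cons
      simp only [vget0, vget1]
      omega
    · intro v; exact Nat.sub_le _ _
  exact (E2.comp2 h hg hf).of_eq fun v => rfl

/-- Definition by cases. -/
theorem E2.ite0 {n : ℕ} {f g h : List.Vector ℕ n → ℕ} (hf : E2 f) (hg : E2 g) (hh : E2 h) :
    E2 (fun v => if f v = 0 then g v else h v) := by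
  have h1 : E2 (fun v => (1 - f v) * g v + (1 - (1 - f v)) * h v) :=
    (((E2.const 1).sub' hf).mul' hg).add' (((E2.const 1).sub' ((E2.const 1).sub' hf)).mul' hh)
  refine h1.of_eq fun v => ?_
  by_cases h0 : f v = 0
  · simp [h0]
  · have : 1 - f v = 0 := by omega
    simp [h0, this]

theorem E2.iteLe {n : ℕ} {a b g h : List.Vector ℕ n → ℕ} (ha : E2 a) (hb : E2 b) (hg : E2 g)
    (hh : E2 h) : E2 (fun v => if a v ≤ b v then g v else h v) := by
  refine ((ha.sub' hb).ite0 hg hh).of_eq fun v => ?_
  by_cases h0 : a v ≤ b v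
  · have : a v - b v = 0 := by omega
    simp [h0, this]
  · have : a v - b v ≠ 0 := by omega
    simp [h0, this]

theorem E2.iteLt {n : ℕ} {a b g h : List.Vector ℕ n → ℕ} (ha : E2 a) (hb : E2 b) (hg : E2 g)
    (hh : E2 h) : E2 (fun v => if a v < b v then g v else h v) := by
  exact (ha.succ'.iteLe hb hg hh).of_eq fun v => rfl

theorem E2.iteEq {n : ℕ} {a b g h : List.Vector ℕ n → ℕ} (ha : E2 a) (hb : E2 b) (hg : E2 g)
    (hh : E2 h) : E2 (fun v => if a v = b v then g v else h v) := by
  refine (((ha.sub' hb).add' (hb.sub' ha)).ite0 hg hh).of_eq fun v => ?_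
  by_cases h0 : a v = b v
  · simp [h0]
  · have : ¬ (a v - b v + (b v - a v) = 0) := by omega
    rw [if_neg this, if_neg h0]

theorem E2.sqrt' {n : ℕ} {f : List.Vector ℕ n → ℕ} (hf : E2 f) :
    E2 (fun v => Nat.sqrt (f v)) := by
  have h : E2 (fun v : List.Vector ℕ 1 => Nat.sqrt v.head) := by
    refine E2.rec1 (h := Nat.sqrt) 0
      (g := fun v => if (v.get 1 + 1) * (v.get 1 + 1) ≤ v.get 0 + 1 then v.get 1 + 1 else v.get 1)
      (b := fun v => v.get 0)
      (E2.iteLe ((E2.proj 1).succ'.mul' (E2.proj 1).succ') (E2.proj 0).succ'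
        (E2.proj 1).succ' (E2.proj 1)) (E2.proj 0) Nat.sqrt_zero ?_ ?_
    · intro y
      simp only [vget0, vget1]
      split_ifs with hc
      · have h1 : Nat.sqrt y + 1 ≤ Nat.sqrt (y + 1) := Nat.le_sqrt.2 hc
        have h2 : Nat.sqrt (y + 1) ≤ Nat.sqrt y + 1 := Nat.sqrt_succ_le_succ_sqrt y
        omega
      · have h1 : ¬ (Nat.sqrt y + 1 ≤ Nat.sqrt (y + 1)) := fun h => hc (Nat.le_sqrt.1 h)
        have h2 : Nat.sqrt y ≤ Nat.sqrt (y + 1) := Nat.sqrt_le_sqrt (Nat.le_succ y)
        omega
    · intro y
      simpa using Nat.sqrt_le_self y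
  exact E2.comp1 h hf

theorem E2.pair' {n : ℕ} {f g : List.Vector ℕ n → ℕ} (hf : E2 f) (hg : E2 g) :
    E2 (fun v => Nat.pair (f v) (g v)) :=
  (hf.iteLt hg ((hg.mul' hg).add' hf) (((hf.mul' hf).add' hf).add' hg)).of_eq fun _ => rfl

theorem E2.left' {n : ℕ} {f : List.Vector ℕ n → ℕ} (hf : E2 f) :
    E2 (fun v => (Nat.unpair (f v)).1) := by
  have hs := hf.sqrt'
  have hd : E2 (fun v => f v - Nat.sqrt (f v) * Nat.sqrt (f v)) := hf.sub' (hs.mul' hs)
  refine (hd.iteLt hs hd hs).of_eq fun v => ?_
  unfold Nat.unpair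
  by_cases h : f v - Nat.sqrt (f v) * Nat.sqrt (f v) < Nat.sqrt (f v)
  · simp only [h, if_true]
  · simp only [h, if_false]

theorem E2.right' {n : ℕ} {f : List.Vector ℕ n → ℕ} (hf : E2 f) :
    E2 (fun v => (Nat.unpair (f v)).2) := by
  have hs := hf.sqrt'
  have hd : E2 (fun v => f v - Nat.sqrt (f v) * Nat.sqrt (f v)) := hf.sub' (hs.mul' hs)
  refine (hd.iteLt hs hs (hd.sub' hs)).of_eq fun v => ?_
  unfold Nat.unpair
  by_cases h : f v - Nat.sqrt (f v) * Nat.sqrt (f v) < Nat.sqrt (f v)
  · simp only [h, if_true]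
  · simp only [h, if_false]

/-! ### The abstract machine

A state is a natural number: either `evalS c n k` (evaluate the program `c` on the input `n`,
then continue with the stack `k`) or `retS v k` (return the value `v` to the stack `k`).  The
empty stack is `0`.
-/

/-- The state: evaluate the program `c` at `n` with stack `k`. -/
def evalS (c n k : ℕ) : ℕ := Nat.pair 0 (Nat.pair c (Nat.pair n k))

/-- The state: return the value `v` to the stack `k`. -/
def retS (v k : ℕ) : ℕ := Nat.pair 1 (Nat.pair v k)

/-- A stack frame with tag `t`, data `d` on top of the stack `r`. -/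
def frame (t d r : ℕ) : ℕ := Nat.pair t (Nat.pair d r)

/-- The step function on states of the form `evalS`. -/
def stepE (c n k : ℕ) : ℕ :=
  if c.unpair.1 = 0 then retS 0 k
  else if c.unpair.1 = 1 then retS (n + 1) k
  else if c.unpair.1 = 2 then retS n.unpair.1 k
  else if c.unpair.1 = 3 then retS n.unpair.2 k
  else if c.unpair.1 = 4 then
    evalS c.unpair.2.unpair.1 n (frame 1 (Nat.pair c.unpair.2.unpair.2 n) k)
  else if c.unpair.1 = 5 then
    evalS c.unpair.2.unpair.2 n (frame 3 c.unpair.2.unpair.1 k)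
  else if n.unpair.2 = 0 then evalS c.unpair.2.unpair.1 n.unpair.1 k
  else evalS c (Nat.pair n.unpair.1 (n.unpair.2 - 1))
    (frame 4 (Nat.pair c.unpair.2.unpair.2 (Nat.pair n.unpair.1 (n.unpair.2 - 1))) k)

/-- The step function on states of the form `retS`. -/
def stepR (v k : ℕ) : ℕ :=
  if k.unpair.1 = 0 then retS v k
  else if k.unpair.1 = 1 then
    evalS k.unpair.2.unpair.1.unpair.1 k.unpair.2.unpair.1.unpair.2
      (frame 2 v k.unpair.2.unpair.2)
  else if k.unpair.1 = 2 then
    retS (Nat.pair k.unpair.2.unpair.1 v) k.unpair.2.unpair.2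
  else if k.unpair.1 = 3 then evalS k.unpair.2.unpair.1 v k.unpair.2.unpair.2
  else evalS k.unpair.2.unpair.1.unpair.1
    (Nat.pair k.unpair.2.unpair.1.unpair.2.unpair.1
      (Nat.pair k.unpair.2.unpair.1.unpair.2.unpair.2 v)) k.unpair.2.unpair.2

/-- The step function of the machine. -/
def step (s : ℕ) : ℕ :=
  if s.unpair.1 = 0 then
    stepE s.unpair.2.unpair.1 s.unpair.2.unpair.2.unpair.1 s.unpair.2.unpair.2.unpair.2
  else stepR s.unpair.2.unpair.1 s.unpair.2.unpair.2

theorem step_evalS (c n k : ℕ) : step (evalS c n k) = stepE c n k := by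
  simp [step, evalS]

theorem step_retS (v k : ℕ) : step (retS v k) = stepR v k := by
  simp [step, retS]

/-- The final states `retS v 0` are fixed. -/
theorem step_final (v : ℕ) : step (retS v 0) = retS v 0 := by
  rw [step_retS]; simp [stepR]

theorem iterate_final (t v : ℕ) : step^[t] (retS v 0) = retS v 0 :=
  Function.iterate_fixed (step_final v) t

/-! ### The machine is in `E2` -/

theorem E2.evalS' {n : ℕ} {a b c : List.Vector ℕ n → ℕ} (ha : E2 a) (hb : E2 b) (hc : E2 c) :
    E2 (fun v => evalS (a v) (b v) (c v)) :=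
  (E2.const 0).pair' (ha.pair' (hb.pair' hc))

theorem E2.retS' {n : ℕ} {a b : List.Vector ℕ n → ℕ} (ha : E2 a) (hb : E2 b) :
    E2 (fun v => retS (a v) (b v)) :=
  (E2.const 1).pair' (ha.pair' hb)

theorem E2.frame' {n : ℕ} (t : ℕ) {a b : List.Vector ℕ n → ℕ} (ha : E2 a) (hb : E2 b) :
    E2 (fun v => frame t (a v) (b v)) :=
  (E2.const t).pair' (ha.pair' hb)

theorem E2.stepE' {n : ℕ} {c m k : List.Vector ℕ n → ℕ} (hc : E2 c) (hm : E2 m) (hk : E2 k) :
    E2 (fun v => stepE (c v) (m v) (k v)) := by
  have ht := hc.left'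
  have h1 := hc.right'.left'
  have h2 := hc.right'.right'
  unfold stepE
  refine ht.iteEq (E2.const 0) ((E2.const 0).retS' hk) ?_
  refine ht.iteEq (E2.const 1) (hm.succ'.retS' hk) ?_
  refine ht.iteEq (E2.const 2) (hm.left'.retS' hk) ?_
  refine ht.iteEq (E2.const 3) (hm.right'.retS' hk) ?_
  refine ht.iteEq (E2.const 4) (h1.evalS' hm ((h2.pair' hm).frame' 1 hk)) ?_
  refine ht.iteEq (E2.const 5) (h2.evalS' hm (h1.frame' 3 hk)) ?_
  refine hm.right'.iteEq (E2.const 0) (h1.evalS' hm.left' hk) ?_
  exact hc.evalS' (hm.left'.pair' hm.right'.pred')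
    ((h2.pair' (hm.left'.pair' hm.right'.pred')).frame' 4 hk)

theorem E2.stepR' {n : ℕ} {w k : List.Vector ℕ n → ℕ} (hw : E2 w) (hk : E2 k) :
    E2 (fun v => stepR (w v) (k v)) := by
  have ht := hk.left'
  have hd := hk.right'.left'
  have hr := hk.right'.right'
  unfold stepR
  refine ht.iteEq (E2.const 0) (hw.retS' hk) ?_
  refine ht.iteEq (E2.const 1) (hd.left'.evalS' hd.right' (hw.frame' 2 hr)) ?_
  refine ht.iteEq (E2.const 2) ((hd.pair' hw).retS' hr) ?_
  refine ht.iteEq (E2.const 3) (hd.evalS' hw hr) ?_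
  exact hd.left'.evalS' (hd.right'.left'.pair' (hd.right'.right'.pair' hw)) hr

theorem E2.step' {n : ℕ} {s : List.Vector ℕ n → ℕ} (hs : E2 s) :
    E2 (fun v => step (s v)) := by
  unfold step
  exact hs.left'.iteEq (E2.const 0)
    (hs.right'.left'.stepE' hs.right'.right'.left' hs.right'.right'.right')
    (hs.right'.left'.stepR' hs.right'.right')

/-- Cut off at `z`: values above `z` are replaced by the failure value `z + 1`. -/
def cap (z s : ℕ) : ℕ := if s ≤ z then s else z + 1

/-- The run of the machine from `s`, restricted to states `≤ z`; `z + 1` means failure. -/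
def run (s z : ℕ) : ℕ → ℕ
  | 0 => cap z s
  | y + 1 => if run s z y ≤ z then cap z (step (run s z y)) else z + 1

theorem cap_le (z s : ℕ) : cap z s ≤ z + 1 := by
  unfold cap; split_ifs <;> omega

theorem run_le (s z y : ℕ) : run s z y ≤ z + 1 := by
  cases y with
  | zero => exact cap_le z s
  | succ y =>
    rw [run]; split_ifs
    · exact cap_le z _
    · exact le_rfl

theorem E2.cap' {n : ℕ} {z s : List.Vector ℕ n → ℕ} (hz : E2 z) (hs : E2 s) :
    E2 (fun v => cap (z v) (s v)) :=
  hs.iteLe hz hs hz.succ'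

theorem E2.run' {n : ℕ} {s z y : List.Vector ℕ n → ℕ} (hs : E2 s) (hz : E2 z) (hy : E2 y) :
    E2 (fun v => run (s v) (z v) (y v)) := by
  have h : E2 (fun v : List.Vector ℕ 3 => run (v.get 1) (v.get 2) (v.get 0)) := by
    refine E2.boundedRec (f := fun v : List.Vector ℕ 2 => cap (v.get 1) (v.get 0))
      (g := fun v : List.Vector ℕ 4 =>
        if v.get 1 ≤ v.get 3 then cap (v.get 3) (step (v.get 1)) else v.get 3 + 1)
      (b := fun v : List.Vector ℕ 3 => v.get 2 + 1) _ ((E2.proj 1).cap' (E2.proj 0)) ?_
      (E2.proj 2).succ' ?_ ?_ ?_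
    · exact (E2.proj 1).iteLe (E2.proj 3) ((E2.proj 3).cap' (E2.proj 1).step') (E2.proj 3).succ'
    · intro v
      obtain ⟨a, w, rfl⟩ := v.exists_eq_cons
      obtain ⟨b, w, rfl⟩ := w.exists_eq_cons
      simp only [vget0, vget1, vget2, run]
    · intro y v
      obtain ⟨a, w, rfl⟩ := v.exists_eq_cons
      obtain ⟨b, w, rfl⟩ := w.exists_eq_cons
      simp only [vget0, vget1, vget2, vget3, run]
    · intro v
      obtain ⟨y, w, rfl⟩ := v.exists_eq_cons
      obtain ⟨a, w, rfl⟩ := w.exists_eq_cons
      obtain ⟨b, w, rfl⟩ := w.exists_eq_cons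
      simpa only [vget0, vget1, vget2] using run_le _ _ _
  exact (E2.comp3 h hy hs hz).of_eq fun v => rfl

/-- The bounded halting predicate: `halts s z = 1` if the machine started in state `s` is in
the final state `retS 0 0` after `z` steps, all states on the way being `≤ z`. -/
def halts (s z : ℕ) : ℕ :=
  if run s z z ≤ z then (if run s z z = retS 0 0 then 1 else 0) else 0

theorem E2.halts' : E2 (fun v : List.Vector ℕ 2 => halts (v.get 0) (v.get 1)) := by
  unfold halts
  have h := E2.run' (E2.proj (0 : Fin 2)) (E2.proj (1 : Fin 2)) (E2.proj (1 : Fin 2))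
  exact h.iteLe (E2.proj 1) (h.iteEq (E2.const _) (E2.const 1) (E2.const 0)) (E2.const 0)

/-! ### Correctness of the bounded halting predicate -/

theorem run_eq (s z y : ℕ) (h : run s z y ≤ z) : run s z y = step^[y] s := by
  induction y with
  | zero =>
    rw [run] at h ⊢
    unfold cap at h ⊢
    split_ifs at h ⊢ with hc
    · rfl
    · omega
  | succ y ih =>
    rw [run] at h ⊢
    split_ifs at h ⊢ with hc
    · rw [Function.iterate_succ_apply', ← ih hc]
      unfold cap at h ⊢
      split_ifs at h ⊢ with hc'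
      · rfl
      · omega
    · omega

theorem run_eq_of_bound (s z y : ℕ) (h : ∀ t ≤ y, step^[t] s ≤ z) : run s z y = step^[y] s := by
  induction y with
  | zero =>
    have h0 : s ≤ z := h 0 le_rfl
    rw [run, cap, if_pos h0]; rfl
  | succ y ih =>
    have h1 := ih fun t ht => h t (by omega)
    have h2 := h (y + 1) le_rfl
    rw [Function.iterate_succ_apply'] at h2
    rw [run, h1, if_pos (h y (by omega)), cap, if_pos h2, Function.iterate_succ_apply']

theorem iterate_of_halts {s z : ℕ} (h : halts s z = 1) : step^[z] s = retS 0 0 := by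
  unfold halts at h
  split_ifs at h with h1 h2
  rw [← run_eq s z z h1, h2]

theorem halts_of_iterate {s z T : ℕ} (hT : step^[T] s = retS 0 0) (hTz : T ≤ z)
    (hb : ∀ t ≤ T, step^[t] s ≤ z) : halts s z = 1 := by
  have h1 : ∀ t, T ≤ t → step^[t] s = retS 0 0 := by
    intro t ht
    obtain ⟨u, rfl⟩ := Nat.exists_eq_add_of_le ht
    rw [add_comm, Function.iterate_add_apply, hT, iterate_final]
  have h2 : ∀ t ≤ z, step^[t] s ≤ z := by
    intro t _
    by_cases h : t ≤ T
    · exact hb t h
    · rw [h1 t (by omega), ← hT]; exact hb T le_rfl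
  have h3 := run_eq_of_bound s z z h2
  unfold halts
  rw [h3, if_pos (h2 z le_rfl), if_pos (h1 z hTz)]

/-! ### The machine computes all primitive recursive functions in primitive recursive time -/

theorem exists_code {f : ℕ → ℕ} (hf : Nat.Primrec f) :
    ∃ (c : ℕ) (T : ℕ → ℕ), Primrec T ∧ ∀ n k, step^[T n] (evalS c n k) = retS (f n) k := by
  induction hf with
  | zero =>
    refine ⟨Nat.pair 0 0, fun _ => 1, Primrec.const 1, fun n k => ?_⟩
    simp only [Function.iterate_one]
    rw [step_evalS]; simp [stepE]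
  | succ =>
    refine ⟨Nat.pair 1 0, fun _ => 1, Primrec.const 1, fun n k => ?_⟩
    simp only [Function.iterate_one]
    rw [step_evalS]; simp [stepE]
  | left =>
    refine ⟨Nat.pair 2 0, fun _ => 1, Primrec.const 1, fun n k => ?_⟩
    simp only [Function.iterate_one]
    rw [step_evalS]; simp [stepE]
  | right =>
    refine ⟨Nat.pair 3 0, fun _ => 1, Primrec.const 1, fun n k => ?_⟩
    simp only [Function.iterate_one]
    rw [step_evalS]; simp [stepE]
  | @pair f g _ _ ihf ihg =>
    obtain ⟨cf, Tf, hTf, hcf⟩ := ihf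
    obtain ⟨cg, Tg, hTg, hcg⟩ := ihg
    refine ⟨Nat.pair 4 (Nat.pair cf cg), fun n => 1 + (Tg n + (1 + (Tf n + 1))), ?_, fun n k => ?_⟩
    · exact Primrec.nat_add.comp (Primrec.const 1) (Primrec.nat_add.comp hTg
        (Primrec.nat_add.comp (Primrec.const 1) (Primrec.nat_add.comp hTf (Primrec.const 1))))
    · rw [Function.iterate_add_apply, Function.iterate_add_apply, Function.iterate_add_apply,
        Function.iterate_add_apply]
      simp only [Function.iterate_one]
      rw [step_evalS]
      have h1 : stepE (Nat.pair 4 (Nat.pair cf cg)) n k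
          = evalS cf n (frame 1 (Nat.pair cg n) k) := by simp [stepE]
      rw [h1, hcf, step_retS]
      have h2 : stepR (f n) (frame 1 (Nat.pair cg n) k) = evalS cg n (frame 2 (f n) k) := by
        simp [stepR, frame]
      rw [h2, hcg, step_retS]
      simp [stepR, frame]
  | @comp f g _ _ ihf ihg =>
    obtain ⟨cf, Tf, hTf, hcf⟩ := ihf
    obtain ⟨cg, Tg, hTg, hcg⟩ := ihg
    refine ⟨Nat.pair 5 (Nat.pair cf cg), fun n => Tf (g n) + (1 + (Tg n + 1)), ?_, fun n k => ?_⟩
    · have hg : Primrec g := Primrec.nat_iff.2 ‹Nat.Primrec g›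
      exact Primrec.nat_add.comp (hTf.comp hg) (Primrec.nat_add.comp (Primrec.const 1)
        (Primrec.nat_add.comp hTg (Primrec.const 1)))
    · rw [Function.iterate_add_apply, Function.iterate_add_apply, Function.iterate_add_apply]
      simp only [Function.iterate_one]
      rw [step_evalS]
      have h1 : stepE (Nat.pair 5 (Nat.pair cf cg)) n k = evalS cg n (frame 3 cf k) := by
        simp [stepE]
      rw [h1, hcg, step_retS]
      have h2 : stepR (g n) (frame 3 cf k) = evalS cf (g n) k := by
        simp [stepR, frame]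
      rw [h2, hcf]
  | @prec f g hf hg ihf ihg =>
    obtain ⟨cf, Tf, hTf, hcf⟩ := ihf
    obtain ⟨cg, Tg, hTg, hcg⟩ := ihg
    have hV := Primrec.nat_iff.2 (Nat.Primrec.prec hf hg)
    set V : ℕ → ℕ := Nat.unpaired fun z n =>
      Nat.rec (f z) (fun y IH => g (Nat.pair z (Nat.pair y IH))) n with hVdef
    refine ⟨Nat.pair 6 (Nat.pair cf cg), fun n =>
      Nat.rec (Tf n.unpair.1 + 1) (fun y IH =>
        Tg (Nat.pair n.unpair.1 (Nat.pair y (V (Nat.pair n.unpair.1 y)))) + (1 + (IH + 1)))
        n.unpair.2, ?_, ?_⟩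
    · have hz : Primrec fun p : ℕ × ℕ × ℕ => p.1.unpair.1 :=
        (Primrec.fst.comp Primrec.unpair).comp Primrec.fst
      have hy : Primrec fun p : ℕ × ℕ × ℕ => p.2.1 := Primrec.fst.comp Primrec.snd
      have hIH : Primrec fun p : ℕ × ℕ × ℕ => p.2.2 := Primrec.snd.comp Primrec.snd
      refine Primrec.nat_rec' (f := fun n : ℕ => n.unpair.2)
        (g := fun n : ℕ => Tf n.unpair.1 + 1)
        (h := fun n p => Tg (Nat.pair n.unpair.1 (Nat.pair p.1 (V (Nat.pair n.unpair.1 p.1))))
          + (1 + (p.2 + 1))) (Primrec.snd.comp Primrec.unpair)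
        (Primrec.nat_add.comp (hTf.comp (Primrec.fst.comp Primrec.unpair)) (Primrec.const 1)) ?_
      exact Primrec.nat_add.comp
        (hTg.comp (Primrec₂.natPair.comp hz (Primrec₂.natPair.comp hy
          (hV.comp (Primrec₂.natPair.comp hz hy)))))
        (Primrec.nat_add.comp (Primrec.const 1) (Primrec.nat_add.comp hIH (Primrec.const 1)))
    · have key : ∀ z m k, step^[Nat.rec (Tf z + 1) (fun y IH =>
          Tg (Nat.pair z (Nat.pair y (V (Nat.pair z y)))) + (1 + (IH + 1))) m]
          (evalS (Nat.pair 6 (Nat.pair cf cg)) (Nat.pair z m) k)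
          = retS (V (Nat.pair z m)) k := by
        intro z m
        induction m with
        | zero =>
          intro k
          change step^[Tf z + 1] _ = _
          rw [Function.iterate_add_apply]
          simp only [Function.iterate_one]
          rw [step_evalS]
          have h1 : stepE (Nat.pair 6 (Nat.pair cf cg)) (Nat.pair z 0) k = evalS cf z k := by
            simp [stepE]
          rw [h1, hcf]
          simp [hVdef]
        | succ m ih =>
          intro k
          change step^[Tg (Nat.pair z (Nat.pair m (V (Nat.pair z m)))) + (1 +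
            (Nat.rec (Tf z + 1) (fun y IH =>
              Tg (Nat.pair z (Nat.pair y (V (Nat.pair z y)))) + (1 + (IH + 1))) m + 1))] _ = _
          rw [Function.iterate_add_apply, Function.iterate_add_apply,
            Function.iterate_add_apply]
          simp only [Function.iterate_one]
          rw [step_evalS]
          have h1 : stepE (Nat.pair 6 (Nat.pair cf cg)) (Nat.pair z (m + 1)) k
              = evalS (Nat.pair 6 (Nat.pair cf cg)) (Nat.pair z m)
                (frame 4 (Nat.pair cg (Nat.pair z m)) k) := by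
            simp [stepE]
          rw [h1, ih, step_retS]
          have h2 : stepR (V (Nat.pair z m)) (frame 4 (Nat.pair cg (Nat.pair z m)) k)
              = evalS cg (Nat.pair z (Nat.pair m (V (Nat.pair z m)))) k := by
            simp [stepR, frame]
          rw [h2, hcg]
          simp [hVdef]
      intro n k
      have := key n.unpair.1 n.unpair.2 k
      rw [Nat.pair_unpair] at this
      exact this

/-! ### `E2` functions are primitive recursive -/

theorem E2.primrec' {n : ℕ} {f : List.Vector ℕ n → ℕ} (hf : E2 f) : Nat.Primrec' f := by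
  induction hf with
  | zero => exact Nat.Primrec'.const 0
  | succ => exact Nat.Primrec'.succ
  | proj i => exact Nat.Primrec'.get i
  | add =>
    refine Nat.Primrec'.add.of_eq fun v => ?_
    obtain ⟨a, w, rfl⟩ := v.exists_eq_cons
    obtain ⟨b, w, rfl⟩ := w.exists_eq_cons
    simp only [vget0, vget1, List.Vector.head_cons, List.Vector.tail_cons]
  | mul =>
    refine Nat.Primrec'.mul.of_eq fun v => ?_
    obtain ⟨a, w, rfl⟩ := v.exists_eq_cons
    obtain ⟨b, w, rfl⟩ := w.exists_eq_cons
    simp only [vget0, vget1, List.Vector.head_cons, List.Vector.tail_cons]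
  | comp g _ _ ihf ihg => exact Nat.Primrec'.comp g ihf ihg
  | @boundedRec n f g b h _ _ _ h0 hs _ ihf ihg _ =>
    refine (Nat.Primrec'.prec ihf ihg).of_eq fun v => ?_
    obtain ⟨y, w, rfl⟩ := v.exists_eq_cons
    simp only [List.Vector.head_cons, List.Vector.tail_cons]
    induction y with
    | zero => exact (h0 w).symm
    | succ y ih => rw [hs]; simp only [ih]

theorem primrec_step : Primrec step := by
  have h := (E2.step' (E2.proj (0 : Fin 1))).primrec'
  refine Nat.Primrec'.prim_iff₁.1 (h.of_eq fun v => ?_)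
  rw [List.Vector.get_zero]

theorem primrec_iterate_step : Primrec₂ fun (s t : ℕ) => step^[t] s :=
  Primrec.nat_iterate (f := fun p : ℕ × ℕ => p.2) (g := fun p : ℕ × ℕ => p.1)
    (h := fun _ s => step s) Primrec.snd Primrec.fst (primrec_step.comp Primrec.snd)

/-- A primitive recursive bound for the states visited by the machine during `t` steps. -/
def visited (s : ℕ) (t : ℕ) : ℕ :=
  Nat.rec s (fun y IH => IH + step^[y + 1] s) t

theorem le_visited (s t u : ℕ) (h : u ≤ t) : step^[u] s ≤ visited s t := by
  induction t with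
  | zero =>
    obtain rfl : u = 0 := by omega
    exact le_rfl
  | succ t ih =>
    have h1 : visited s (t + 1) = visited s t + step^[t + 1] s := rfl
    rw [h1]
    by_cases hu : u ≤ t
    · exact (ih hu).trans (Nat.le_add_right _ _)
    · obtain rfl : u = t + 1 := by omega
      exact Nat.le_add_left _ _

theorem primrec_visited : Primrec₂ visited := by
  have h1 : Primrec fun p : (ℕ × ℕ) × (ℕ × ℕ) => step^[p.2.1 + 1] p.1.1 :=
    primrec_iterate_step.comp (Primrec.fst.comp Primrec.fst)
      (Primrec.succ.comp (Primrec.fst.comp Primrec.snd))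
  exact Primrec.nat_rec' (f := fun p : ℕ × ℕ => p.2) (g := fun p : ℕ × ℕ => p.1)
    (h := fun p q => q.2 + step^[q.1 + 1] p.1) Primrec.snd Primrec.fst
    (Primrec.nat_add.comp (Primrec.snd.comp Primrec.snd) h1)

/-! ### The main argument -/

namespace PunctualCopy

variable (A : PunctualCopy)

theorem primrec_iota : Primrec A.iota := by
  have h : ∀ n, A.iota n = A.succ^[n] (A.iota 0) := by
    intro n
    induction n with
    | zero => rfl
    | succ n ih => rw [A.iota_succ, ih, Function.iterate_succ_apply']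
  have h2 : Primrec fun n : ℕ => A.succ^[n] (A.iota 0) :=
    Primrec.nat_iterate (f := fun n : ℕ => n) (g := fun _ : ℕ => A.iota 0)
      (h := fun _ s => A.succ s) Primrec.id (Primrec.const _)
      (A.primrec_succ.comp Primrec.snd)
  exact h2.of_eq fun n => (h n).symm

/-- If the bounded halting predicate is primitive recursive on the copy, then the inverse of
the isomorphism is bounded by a primitive recursive function. -/
theorem exists_bound
    (hA : A.PrimrecOn (fun v : List.Vector ℕ 2 => halts (v.get 0) (v.get 1))) :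
    ∃ B : ℕ → ℕ, Primrec B ∧ ∀ a, A.iota.symm a < B a := by
  set H := A.transfer (fun v : List.Vector ℕ 2 => halts (v.get 0) (v.get 1)) with hH
  have hH1 : Primrec H := Nat.Primrec'.prim_iff.1 hA
  have hval : ∀ s a, H (A.iota s ::ᵥ a ::ᵥ List.Vector.nil) = A.iota (halts s (A.iota.symm a)) := by
    intro s a
    simp only [hH, transfer, List.Vector.map_cons, List.Vector.map_nil, vget0, vget1,
      Equiv.symm_apply_apply]
  set χ : ℕ → ℕ := fun x =>
    if H (A.iota (evalS x.unpair.1 x 0) ::ᵥ x.unpair.2 ::ᵥ List.Vector.nil) = A.iota 1 then 1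
    else 0 with hχ
  have hev : Primrec fun x : ℕ => evalS x.unpair.1 x 0 := by
    unfold evalS
    exact Primrec₂.natPair.comp (Primrec.const 0) (Primrec₂.natPair.comp
      (Primrec.fst.comp Primrec.unpair) (Primrec₂.natPair.comp Primrec.id (Primrec.const 0)))
  have hχ1 : Primrec χ := by
    refine Primrec.ite (Primrec.eq.comp (hH1.comp ?_) (Primrec.const _)) (Primrec.const 1)
      (Primrec.const 0)
    exact Primrec.vector_cons.comp (A.primrec_iota.comp hev)
      (Primrec.vector_cons.comp (Primrec.snd.comp Primrec.unpair) (Primrec.const _))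
  obtain ⟨c, T, hT, hc⟩ := exists_code (Primrec.nat_iff.1 hχ1)
  refine ⟨fun a => visited (evalS c (Nat.pair c a) 0) (T (Nat.pair c a)) + T (Nat.pair c a) + 1,
    ?_, ?_⟩
  · have hp : Primrec fun a : ℕ => Nat.pair c a :=
      Primrec₂.natPair.comp (Primrec.const c) Primrec.id
    have he : Primrec fun a : ℕ => evalS c (Nat.pair c a) 0 := by
      unfold evalS
      exact Primrec₂.natPair.comp (Primrec.const 0) (Primrec₂.natPair.comp
        (Primrec.const c) (Primrec₂.natPair.comp hp (Primrec.const 0)))
    exact Primrec.succ.comp (Primrec.nat_add.comp (primrec_visited.comp he (hT.comp hp))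
      (hT.comp hp))
  · intro a
    by_contra hcon
    simp only [not_lt] at hcon
    set x := Nat.pair c a with hx
    set s := evalS c x 0 with hs
    have hχx : χ x = if halts s (A.iota.symm a) = 1 then 1 else 0 := by
      simp only [hχ]
      rw [hval]
      simp only [hs, hx, Nat.unpair_pair, EmbeddingLike.apply_eq_iff_eq]
    have hrun := hc x 0
    rw [← hs] at hrun
    by_cases h1 : halts s (A.iota.symm a) = 1
    · rw [if_pos h1] at hχx
      have h2 := iterate_of_halts h1
      rw [hχx] at hrun
      have h3 : step^[T x + A.iota.symm a] s = retS 0 0 := by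
        rw [Function.iterate_add_apply, h2, iterate_final]
      have h4 : step^[A.iota.symm a + T x] s = retS 1 0 := by
        rw [Function.iterate_add_apply, hrun, iterate_final]
      rw [add_comm, h4] at h3
      simp [retS] at h3
    · rw [if_neg h1] at hχx
      rw [hχx] at hrun
      refine h1 (halts_of_iterate hrun (by omega) fun t ht => ?_)
      have := le_visited s (T x) t ht
      omega

theorem primrec_iota_symm
    (hA : A.PrimrecOn (fun v : List.Vector ℕ 2 => halts (v.get 0) (v.get 1))) :
    Primrec A.iota.symm := by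
  obtain ⟨B, hB, hlt⟩ := A.exists_bound hA
  have h1 : Primrec fun a : ℕ =>
      (Nat.rec 0 (fun y IH => if A.iota y = a then y else IH) (B a) : ℕ) := by
    refine Primrec.nat_rec' (f := B) (g := fun _ : ℕ => 0)
      (h := fun a q => if A.iota q.1 = a then q.1 else q.2) hB (Primrec.const 0) ?_
    exact Primrec.ite (Primrec.eq.comp (A.primrec_iota.comp (Primrec.fst.comp Primrec.snd))
      Primrec.fst) (Primrec.fst.comp Primrec.snd) (Primrec.snd.comp Primrec.snd)
  refine h1.of_eq fun a => ?_
  have key : ∀ m, (Nat.rec 0 (fun y IH => if A.iota y = a then y else IH) m : ℕ)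
      = if A.iota.symm a < m then A.iota.symm a else 0 := by
    intro m
    induction m with
    | zero => simp
    | succ m ih =>
      change (if A.iota m = a then m else
        (Nat.rec 0 (fun y IH => if A.iota y = a then y else IH) m : ℕ)) = _
      rw [ih]
      by_cases h : A.iota m = a
      · have : A.iota.symm a = m := by rw [← h, Equiv.symm_apply_apply]
        rw [if_pos h, this, if_pos (Nat.lt_succ_self m)]
      · rw [if_neg h]
        have hne : A.iota.symm a ≠ m := fun h' => h (by rw [← h', Equiv.apply_symm_apply])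
        by_cases h2 : A.iota.symm a < m
        · rw [if_pos h2, if_pos (by omega)]
        · rw [if_neg h2, if_neg (by omega)]
  rw [key, if_pos (hlt a)]

theorem standard_of_halts
    (hA : A.PrimrecOn (fun v : List.Vector ℕ 2 => halts (v.get 0) (v.get 1))) :
    A.PunctuallyStandard := by
  have hi := A.primrec_iota
  have hs := A.primrec_iota_symm hA
  have hmap : ∀ {k : ℕ} {g : ℕ → ℕ}, Primrec g → ∀ i : Fin k,
      Nat.Primrec' (fun v : List.Vector ℕ k => g (v.get i)) := by
    intro k g hg i
    exact Nat.Primrec'.prim_iff.2 (hg.comp (Primrec.vector_get.comp Primrec.id (Primrec.const i)))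
  have hofFn : ∀ {k : ℕ} (g : ℕ → ℕ) (v : List.Vector ℕ k),
      List.Vector.ofFn (fun i => g (v.get i)) = v.map g := by
    intro k g v
    ext i
    simp
  intro k f
  constructor
  · intro h
    have h1 : Nat.Primrec' fun v : List.Vector ℕ k => A.transfer f (v.map A.iota) :=
      (Nat.Primrec'.comp (fun i v => A.iota (v.get i)) h (hmap hi)).of_eq fun v => by
        rw [hofFn]
    have h2 : Primrec fun v : List.Vector ℕ k => A.iota.symm (A.transfer f (v.map A.iota)) :=
      hs.comp (Nat.Primrec'.prim_iff.1 h1)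
    refine (Nat.Primrec'.prim_iff.2 h2).of_eq fun v => ?_
    simp only [transfer, Equiv.symm_apply_apply]
    congr 1
    ext i
    simp
  · intro h
    have h1 : Nat.Primrec' fun v : List.Vector ℕ k => f (v.map A.iota.symm) :=
      (Nat.Primrec'.comp (fun i v => A.iota.symm (v.get i)) h (hmap hs)).of_eq fun v => by
        rw [hofFn]
    exact Nat.Primrec'.prim_iff.2 (hi.comp (Nat.Primrec'.prim_iff.1 h1))

end PunctualCopy

/-- **The second Grzegorczyk class is a basis for punctual standardness**: every punctual copy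
of `(ℕ, S)` on which all functions of `E2` are primitive recursive is punctually standard. -/
theorem result : IsPunctualBasis (fun _ f => E2 f) := fun A hA =>
  A.standard_of_halts (hA 2 _ E2.halts')

end Pool.Agent.Results.MP_9dcafa_lc.E2IsBasis
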